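import Pool.Agent.Helper12_NGR.Stmts

/-!
Squad NGR: bi-ordered finitely generated groups map onto `ℤ` (copy of helper94, BLI, for all
universes).
-/

set_option autoImplicit false

universe u

namespace Pool.Agent.NGR.H12

open Filter Topology

/-- bi-order given by its positive cone -/
structure BiOrd (H : Type u) [Group H] where
  pos : H → Prop
  one : ¬ pos 1
  mul : ∀ {a b}, pos a → pos b → pos (a * b)
  conj : ∀ g {a}, pos a → pos (g * a * g⁻¹)
  tot : ∀ {a}, a ≠ 1 → pos a ∨ pos a⁻¹

section ord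

variable {A : Type u} [Group A] (o : BiOrd A)

/-- `a ≤ b` -/
def le (a b : A) : Prop := a⁻¹ * b = 1 ∨ o.pos (a⁻¹ * b)

theorem le_refl' (a : A) : le o a a := Or.inl (inv_mul_cancel a)

theorem le_trans' {a b c : A} (h : le o a b) (h' : le o b c) : le o a c := by
  have e : a⁻¹ * c = (a⁻¹ * b) * (b⁻¹ * c) := by group
  unfold le at *
  rw [e]
  rcases h with h | h
  · rw [h, one_mul]
    exact h'
  · rcases h' with h' | h'
    · rw [h', mul_one]
      exact Or.inr h
    · exact Or.inr (o.mul h h')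

theorem le_mul_left' {a b : A} (c : A) (h : le o a b) : le o (c * a) (c * b) := by
  unfold le at *
  have e : (c * a)⁻¹ * (c * b) = a⁻¹ * b := by group
  rw [e]
  exact h

theorem le_mul_right' {a b : A} (c : A) (h : le o a b) : le o (a * c) (b * c) := by
  unfold le at *
  have e : (a * c)⁻¹ * (b * c) = c⁻¹ * (a⁻¹ * b) * c⁻¹⁻¹ := by group
  rw [e]
  rcases h with h | h
  · left
    rw [h]
    group
  · exact Or.inr (o.conj c⁻¹ h)

theorem le_mul' {a b c d : A} (h : le o a b) (h' : le o c d) : le o (a * c) (b * d) :=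
  le_trans' o (le_mul_right' o c h) (le_mul_left' o b h')

theorem le_total' (a b : A) : le o a b ∨ le o b a := by
  by_cases h : a⁻¹ * b = 1
  · exact Or.inl (Or.inl h)
  · rcases o.tot h with h | h
    · exact Or.inl (Or.inr h)
    · right
      right
      have e : (a⁻¹ * b)⁻¹ = b⁻¹ * a := by group
      rwa [e] at h

theorem le_antisymm' {a b : A} (h : le o a b) (h' : le o b a) : a = b := by
  rcases h with h | h
  · rw [inv_mul_eq_one] at h
    exact h
  · rcases h' with h' | h'
    · rw [inv_mul_eq_one] at h'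
      exact h'.symm
    · exfalso
      have := o.mul h h'
      have e : a⁻¹ * b * (b⁻¹ * a) = 1 := by group
      rw [e] at this
      exact o.one this

theorem le_inv' {a b : A} (h : le o a b) : le o b⁻¹ a⁻¹ := by
  have h1 := le_mul_left' o b⁻¹ (le_mul_right' o a⁻¹ h)
  have e1 : b⁻¹ * (a * a⁻¹) = b⁻¹ := by group
  have e2 : b⁻¹ * (b * a⁻¹) = a⁻¹ := by group
  rwa [e1, e2] at h1

theorem pow_lt' {m : A} (hm : o.pos m) : ∀ {n : ℕ}, 0 < n → o.pos (m ^ n) := by
  intro n hn
  induction n with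
  | zero => exact absurd hn (lt_irrefl 0)
  | succ n ih =>
    rcases Nat.eq_zero_or_pos n with h | h
    · subst h
      simpa using hm
    · rw [pow_succ]
      exact o.mul (ih h) hm

theorem zpow_le_iff {m : A} (hm : o.pos m) (j k : ℤ) : le o (m ^ j) (m ^ k) ↔ j ≤ k := by
  have key : ∀ j k : ℤ, j ≤ k → le o (m ^ j) (m ^ k) := by
    intro j k h
    obtain ⟨n, hn⟩ := Int.eq_ofNat_of_zero_le (sub_nonneg.2 h)
    have hn' : k - j = (n : ℤ) := hn
    have e : (m ^ j)⁻¹ * m ^ k = m ^ n := by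
      rw [← zpow_neg, ← zpow_add, ← zpow_natCast, ← hn']
      congr 1
      ring
    unfold le
    rw [e]
    rcases Nat.eq_zero_or_pos n with h0 | h0
    · left
      rw [h0, pow_zero]
    · exact Or.inr (pow_lt' o hm h0)
  refine ⟨fun h => ?_, key j k⟩
  by_contra hc
  push Not at hc
  have h1 := key k j hc.le
  have h2 := le_antisymm' o h h1
  have h3 : m ^ (j - k) = 1 := by
    rw [zpow_sub, h2, mul_inv_cancel]
  obtain ⟨n, hn⟩ := Int.eq_ofNat_of_zero_le (sub_nonneg.2 hc.le)
  have hn0 : 0 < n := by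
    rcases Nat.eq_zero_or_pos n with h0 | h0
    · subst h0
      have hn' : j - k = ((0 : ℕ) : ℤ) := hn
      rw [Nat.cast_zero] at hn'
      omega
    · exact h0
  have h4 := pow_lt' o hm hn0
  have hn' : j - k = (n : ℤ) := hn
  rw [← zpow_natCast, ← hn', h3] at h4
  exact o.one h4

/-- comparison of the powers of a product with the products of the powers -/
theorem pow_cmp (R : A → A → Prop) (hr : ∀ a, R a a) (ht : ∀ {a b c}, R a b → R b c → R a c)
    (hl : ∀ {a b} (c : A), R a b → R (c * a) (c * b))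
    (hR : ∀ {a b} (c : A), R a b → R (a * c) (b * c)) (x y : A) (h : R (x * y) (y * x)) (q : ℕ) :
    R (x ^ q * y ^ q) ((x * y) ^ q) ∧ R ((x * y) ^ q) (y ^ q * x ^ q) := by
  have C2 : ∀ q : ℕ, R (x * y ^ q) (y ^ q * x) := by
    intro q
    induction q with
    | zero =>
      rw [pow_zero, mul_one, one_mul]
      exact hr x
    | succ q ih =>
      have h1 := hR y ih
      have h2 := hl (y ^ q) h
      have e1 : x * y ^ (q + 1) = x * y ^ q * y := by rw [pow_succ, mul_assoc]
      have e2 : y ^ (q + 1) * x = y ^ q * (y * x) := by rw [pow_succ, mul_assoc]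
      rw [e1, e2]
      refine ht h1 ?_
      rw [mul_assoc]
      exact h2
  induction q with
  | zero =>
    simp only [pow_zero, mul_one]
    exact ⟨hr 1, hr 1⟩
  | succ q ih =>
    constructor
    · have h1 := hR (x * y) ih.1
      have h2 := hR y (hl (x ^ q) (C2 q))
      have e1 : x ^ (q + 1) * y ^ (q + 1) = x ^ q * (x * y ^ q) * y := by
        rw [pow_succ, pow_succ]
        simp only [mul_assoc]
      have e2 : x ^ q * (y ^ q * x) * y = x ^ q * y ^ q * (x * y) := by
        simp only [mul_assoc]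
      rw [e2] at h2
      rw [e1, pow_succ (x * y)]
      exact ht h2 h1
    · have h1 := hl (x * y) ih.2
      have h2 := hR (x ^ q) (C2 (q + 1))
      have e1 : x * y * (y ^ q * x ^ q) = x * y ^ (q + 1) * x ^ q := by
        rw [pow_succ' y]
        simp only [mul_assoc]
      have e2 : y ^ (q + 1) * x ^ (q + 1) = y ^ (q + 1) * x * x ^ q := by
        rw [pow_succ' x]
        simp only [mul_assoc]
      rw [e1] at h1
      rw [pow_succ' (x * y), e2]
      exact ht h1 h2

end ord

section tau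

variable {A : Type u} [Group A] (o : BiOrd A) {m : A} (hm : o.pos m)
  (hb : ∀ x : A, ∃ p : ℕ, le o (m ^ (-(p : ℤ))) x ∧ le o x (m ^ (p : ℤ)))

include hm hb in
theorem exists_k : ∃ k : A → ℤ, ∀ x, le o (m ^ k x) x ∧ ∀ j : ℤ, le o (m ^ j) x → j ≤ k x := by
  have : ∀ x : A, ∃ k : ℤ, le o (m ^ k) x ∧ ∀ j : ℤ, le o (m ^ j) x → j ≤ k := by
    intro x
    obtain ⟨p, hp1, hp2⟩ := hb x
    refine Int.exists_greatest_of_bdd ⟨p, fun z hz => ?_⟩ ⟨_, hp1⟩
    exact (zpow_le_iff o hm _ _).1 (le_trans' o hz hp2)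
  exact ⟨fun x => (this x).choose, fun x => (this x).choose_spec⟩

variable {k : A → ℤ} (hk : ∀ x, le o (m ^ k x) x ∧ ∀ j : ℤ, le o (m ^ j) x → j ≤ k x)

include hk in
theorem k_mono {x y : A} (h : le o x y) : k x ≤ k y :=
  (hk y).2 _ (le_trans' o (hk x).1 h)

include hk in
theorem k_le (x : A) : le o x (m ^ (k x + 1)) := by
  rcases le_total' o x (m ^ (k x + 1)) with h | h
  · exact h
  · have := (hk x).2 _ h
    omega

include hk in
theorem k_add (x y : A) : k x + k y ≤ k (x * y) := by
  refine (hk _).2 _ ?_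
  rw [zpow_add]
  exact le_mul' o (hk x).1 (hk y).1

include hm hk in
theorem k_add' (x y : A) : k (x * y) ≤ k x + k y + 2 := by
  have h1 := le_mul' o (k_le o hk x) (k_le o hk y)
  rw [← zpow_add] at h1
  have h2 := (zpow_le_iff o hm _ _).1 (le_trans' o (hk (x * y)).1 h1)
  omega

include hm hk in
theorem k_one : k 1 = 0 := by
  have h1 : 0 ≤ k 1 := (hk 1).2 0 (by rw [zpow_zero]; exact le_refl' o 1)
  have h2 : le o (m ^ k 1) (m ^ (0 : ℤ)) := by
    rw [zpow_zero]
    exact (hk 1).1
  have h3 := (zpow_le_iff o hm _ _).1 h2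
  omega

include hm hk in
theorem k_m (q : ℕ) : k (m ^ q) = q := by
  have h1 : (q : ℤ) ≤ k (m ^ q) := (hk _).2 _ (by rw [zpow_natCast]; exact le_refl' o _)
  have h2 : le o (m ^ k (m ^ q)) (m ^ (q : ℤ)) := by
    rw [zpow_natCast]
    exact (hk _).1
  have h3 := (zpow_le_iff o hm _ _).1 h2
  omega

include hm hk in
theorem k_pow (x : A) (q : ℕ) : k (x ^ q) ≤ q * (k x + 2) := by
  induction q with
  | zero => simp [k_one o hm hk]
  | succ q ih =>
    have h := k_add' o hm hk (x ^ q) x
    rw [pow_succ]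
    push_cast
    linarith

include hk in
theorem u_sub (x : A) : Subadditive (fun q : ℕ => -((k (x ^ q) : ℤ) : ℝ)) := by
  intro p q
  have h := k_add o hk (x ^ p) (x ^ q)
  rw [← pow_add] at h
  have h' : ((k (x ^ p) + k (x ^ q) : ℤ) : ℝ) ≤ ((k (x ^ (p + q)) : ℤ) : ℝ) := by exact_mod_cast h
  push_cast at h'
  linarith

include hm hk in
theorem u_bdd (x : A) : BddBelow (Set.range fun q : ℕ => -((k (x ^ q) : ℤ) : ℝ) / q) := by
  refine ⟨-(|(k x : ℝ)| + 2), ?_⟩
  rintro _ ⟨q, rfl⟩
  rcases Nat.eq_zero_or_pos q with h0 | h0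
  · subst h0
    simp only [Nat.cast_zero, div_zero]
    have := abs_nonneg (k x : ℝ)
    linarith
  · have hq : (0 : ℝ) < q := by exact_mod_cast h0
    have h := k_pow o hm hk x q
    have h' : ((k (x ^ q) : ℤ) : ℝ) ≤ q * ((k x : ℝ) + 2) := by exact_mod_cast h
    change _ ≤ -((k (x ^ q) : ℤ) : ℝ) / (q : ℝ)
    rw [le_div_iff₀ hq]
    have := le_abs_self (k x : ℝ)
    nlinarith

/-- the limit -/
noncomputable def tau (x : A) : ℝ := - (u_sub o hk x).lim

include hm in
theorem tau_lim (x : A) :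
    Tendsto (fun q : ℕ => ((k (x ^ q) : ℤ) : ℝ) / q) atTop (𝓝 (tau o hk x)) := by
  have h := ((u_sub o hk x).tendsto_lim (u_bdd o hm hk x)).neg
  refine h.congr fun q => ?_
  ring

include hm hk in
theorem k_mul_pow (x y : A) (q : ℕ) : k (x ^ q) + k (y ^ q) ≤ k ((x * y) ^ q) ∧
    k ((x * y) ^ q) ≤ k (x ^ q) + k (y ^ q) + 2 := by
  rcases le_total' o (x * y) (y * x) with h | h
  · obtain ⟨h1, h2⟩ := pow_cmp (le o) (le_refl' o) (fun h h' => le_trans' o h h')
      (fun c h => le_mul_left' o c h) (fun c h => le_mul_right' o c h) x y h q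
    have e1 := k_mono o hk h1
    have e2 := k_mono o hk h2
    have e3 := k_add o hk (x ^ q) (y ^ q)
    have e4 := k_add' o hm hk (y ^ q) (x ^ q)
    omega
  · obtain ⟨h1, h2⟩ := pow_cmp (fun a b => le o b a) (le_refl' o) (fun h h' => le_trans' o h' h)
      (fun c h => le_mul_left' o c h) (fun c h => le_mul_right' o c h) x y h q
    have e1 := k_mono o hk h1
    have e2 := k_mono o hk h2
    have e3 := k_add o hk (y ^ q) (x ^ q)
    have e4 := k_add' o hm hk (x ^ q) (y ^ q)
    omega

include hm in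
theorem tau_mul (x y : A) : tau o hk (x * y) = tau o hk x + tau o hk y := by
  have h1 := tau_lim o hm hk (x * y)
  have h2 := (tau_lim o hm hk x).add (tau_lim o hm hk y)
  have h3 : Tendsto (fun q : ℕ => ((k ((x * y) ^ q) : ℤ) : ℝ) / q -
      (((k (x ^ q) : ℤ) : ℝ) / q + ((k (y ^ q) : ℤ) : ℝ) / q)) atTop (𝓝 0) := by
    have h4 : Tendsto (fun q : ℕ => (2 : ℝ) / q) atTop (𝓝 0) := tendsto_const_div_atTop_nhds_zero_nat 2
    refine squeeze_zero' ?_ ?_ h4
    · refine Eventually.of_forall fun q => ?_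
      have e := (k_mul_pow o hm hk x y q).1
      have e' : ((k (x ^ q) : ℤ) : ℝ) + ((k (y ^ q) : ℤ) : ℝ) ≤ ((k ((x * y) ^ q) : ℤ) : ℝ) := by
        exact_mod_cast e
      rw [← add_div, ← sub_div]
      exact div_nonneg (by linarith) (Nat.cast_nonneg q)
    · refine Eventually.of_forall fun q => ?_
      have e := (k_mul_pow o hm hk x y q).2
      have e' : ((k ((x * y) ^ q) : ℤ) : ℝ) ≤ ((k (x ^ q) : ℤ) : ℝ) + ((k (y ^ q) : ℤ) : ℝ) + 2 := by
        exact_mod_cast e
      rw [← add_div, ← sub_div]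
      exact div_le_div_of_nonneg_right (by linarith) (Nat.cast_nonneg q)
  have h5 := tendsto_nhds_unique h3 (h1.sub h2)
  linarith

include hm in
theorem tau_m : tau o hk m = 1 := by
  refine tendsto_nhds_unique (tau_lim o hm hk m) ?_
  refine tendsto_const_nhds.congr' ?_
  filter_upwards [eventually_gt_atTop 0] with q hq
  rw [k_m o hm hk q]
  have : (q : ℝ) ≠ 0 := by exact_mod_cast hq.ne'
  rw [Int.cast_natCast, div_self this]

end tau

/-- a nonzero homomorphism from a finitely generated group to the real numbers gives a homomorphism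
onto the integers -/
theorem onto_int {A : Type u} [Group A] [Group.FG A] (φ : A →* Multiplicative ℝ) (m : A)
    (hφ : φ m ≠ 1) : ∃ (ψ : A →* Multiplicative ℤ) (t : A), ψ t = Multiplicative.ofAdd 1 := by
  let f : Additive A →+ ℝ := MonoidHom.toAdditiveLeft φ
  have hfg : AddGroup.FG f.range := AddGroup.fg_range f
  have : Module.Finite ℤ f.range := Module.Finite.iff_addGroup_fg.2 hfg
  have : Module.IsTorsionFree ℤ f.range := inferInstance
  have : Module.Free ℤ f.range := inferInstance
  let b := Module.Free.chooseBasis ℤ f.range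
  have hne : Nonempty (Module.Free.ChooseBasisIndex ℤ f.range) := by
    by_contra hc
    have hemp : IsEmpty (Module.Free.ChooseBasisIndex ℤ f.range) := not_nonempty_iff.1 hc
    have h0 : (⟨f (Additive.ofMul m), ⟨_, rfl⟩⟩ : f.range) = 0 := by
      have := b.repr.injective (a₁ := ⟨f (Additive.ofMul m), ⟨_, rfl⟩⟩) (a₂ := 0)
      exact this (Subsingleton.elim _ _)
    have h1 : f (Additive.ofMul m) = 0 := congrArg Subtype.val h0
    exact hφ h1
  obtain ⟨i⟩ := hne
  obtain ⟨t, ht⟩ := (b i).2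
  refine ⟨AddMonoidHom.toMultiplicativeRight ((b.coord i).toAddMonoidHom.comp f.rangeRestrict),
    Additive.toMul t, ?_⟩
  have h2 : f.rangeRestrict t = b i := Subtype.ext ht
  change Multiplicative.ofAdd (b.coord i (f.rangeRestrict t)) = _
  rw [h2, Module.Basis.coord_apply, Module.Basis.repr_self, Finsupp.single_eq_same]

section gen

variable {A : Type u} [Group A] (o : BiOrd A)

theorem pos_of_le {m m' : A} (hm : o.pos m) (h : le o m m') : o.pos m' := by
  have e : m' = m * (m⁻¹ * m') := by group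
  rw [e]
  rcases h with h | h
  · rw [h, mul_one]
    exact hm
  · exact o.mul hm h

theorem exists_max {m : A} (hm : o.pos m) (g : A) :
    ∃ m', o.pos m' ∧ le o m m' ∧ le o g m' := by
  rcases le_total' o m g with h | h
  · exact ⟨g, pos_of_le o hm h, h, le_refl' o g⟩
  · exact ⟨m, hm, le_refl' o m, h⟩

theorem exists_bd {m : A} (hm : o.pos m) (S : Finset A) :
    ∃ m', o.pos m' ∧ ∀ g ∈ S, le o g m' ∧ le o g⁻¹ m' := by
  classical
  induction S using Finset.induction_on with
  | empty => exact ⟨m, hm, fun g hg => absurd hg (Finset.notMem_empty g)⟩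
  | insert a S ha ih =>
    obtain ⟨m1, h1, h2⟩ := ih
    obtain ⟨m2, h3, h4, h5⟩ := exists_max o h1 a
    obtain ⟨m3, h6, h7, h8⟩ := exists_max o h3 a⁻¹
    refine ⟨m3, h6, fun g hg => ?_⟩
    rcases Finset.mem_insert.1 hg with h | h
    · subst h
      exact ⟨le_trans' o h5 h7, h8⟩
    · exact ⟨le_trans' o (h2 g h).1 (le_trans' o h4 h7), le_trans' o (h2 g h).2 (le_trans' o h4 h7)⟩

end gen

theorem exists_onto {A : Type u} [Group A] [Group.FG A] (o : BiOrd A) (hA : ∃ x : A, x ≠ 1) :
    ∃ (ψ : A →* Multiplicative ℤ) (t : A), ψ t = Multiplicative.ofAdd 1 := by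
  obtain ⟨S, hS⟩ := (Group.FG.out : (⊤ : Subgroup A).FG)
  obtain ⟨m0, hm0⟩ : ∃ m : A, o.pos m := by
    obtain ⟨x, hx⟩ := hA
    rcases o.tot hx with h | h
    · exact ⟨x, h⟩
    · exact ⟨x⁻¹, h⟩
  obtain ⟨m, hm, hS2⟩ := exists_bd o hm0 S
  have hb : ∀ x : A, ∃ p : ℕ, le o (m ^ (-(p : ℤ))) x ∧ le o x (m ^ (p : ℤ)) := by
    intro x
    have hx : x ∈ Subgroup.closure (S : Set A) := by
      rw [hS]
      exact Subgroup.mem_top x
    induction hx using Subgroup.closure_induction with
    | mem g hg =>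
      refine ⟨1, ?_, ?_⟩
      · have h := le_inv' o (hS2 g hg).2
        rw [inv_inv] at h
        simpa using h
      · simpa using (hS2 g hg).1
    | one => exact ⟨0, by simpa using le_refl' o 1, by simpa using le_refl' o 1⟩
    | mul x y _ _ hx hy =>
      obtain ⟨p, h1, h2⟩ := hx
      obtain ⟨q, h3, h4⟩ := hy
      refine ⟨p + q, ?_, ?_⟩
      · have e : m ^ (-((p + q : ℕ) : ℤ)) = m ^ (-(p : ℤ)) * m ^ (-(q : ℤ)) := by
          rw [← zpow_add]
          congr 1
          push_cast
          ring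
        rw [e]
        exact le_mul' o h1 h3
      · have e : m ^ (((p + q : ℕ) : ℤ)) = m ^ (p : ℤ) * m ^ (q : ℤ) := by
          rw [← zpow_add]
          congr 1
        rw [e]
        exact le_mul' o h2 h4
    | inv x _ hx =>
      obtain ⟨p, h1, h2⟩ := hx
      refine ⟨p, ?_, ?_⟩
      · rw [zpow_neg]
        exact le_inv' o h2
      · have h := le_inv' o h1
        rwa [zpow_neg, inv_inv] at h
  obtain ⟨k, hk⟩ := exists_k o hm hb
  let φ : A →* Multiplicative ℝ := MonoidHom.mk' (fun x => Multiplicative.ofAdd (tau o hk x))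
    (fun x y => by rw [tau_mul o hm hk x y, ofAdd_add])
  refine onto_int φ m ?_
  intro h
  have h1 : tau o hk m = 0 := h
  rw [tau_m o hm hk] at h1
  exact one_ne_zero h1


end Pool.Agent.NGR.H12
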