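import Pool.Agent.Helper12_NGR.Bi

/-!
Squad NGR, module CON: Conrad's theorem.  A finitely generated nontrivial group with a Conradian
order maps onto `ℤ`.
-/

set_option autoImplicit false

universe u

namespace Pool.Agent.NGR.H12

section ord

variable {G : Type u} [Group G] {P : Set G}

/-- `a ≼ b` -/
def Le (P : Set G) (a b : G) : Prop := a⁻¹ * b = 1 ∨ a⁻¹ * b ∈ P

theorem Le.rfl' (P : Set G) (a : G) : Le P a a := Or.inl (inv_mul_cancel a)

variable (hP : IsCone P)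
include hP

theorem Le.trans' {a b c : G} (h : Le P a b) (h' : Le P b c) : Le P a c := by
  have e : a⁻¹ * c = (a⁻¹ * b) * (b⁻¹ * c) := by group
  unfold Le at *
  rw [e]
  rcases h with h | h
  · rw [h, one_mul]
    exact h'
  · rcases h' with h' | h'
    · rw [h', mul_one]
      exact Or.inr h
    · exact Or.inr (hP.mul _ h _ h')

omit hP in
theorem Le.left {a b : G} (c : G) (h : Le P a b) : Le P (c * a) (c * b) := by
  unfold Le at *
  have e : (c * a)⁻¹ * (c * b) = a⁻¹ * b := by group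
  rw [e]
  exact h

omit hP in
theorem Le.left_iff {a b : G} (c : G) : Le P (c * a) (c * b) ↔ Le P a b := by
  unfold Le
  have e : (c * a)⁻¹ * (c * b) = a⁻¹ * b := by group
  rw [e]

theorem Le.total (a b : G) : Le P a b ∨ Le P b a := by
  by_cases h : a⁻¹ * b = 1
  · exact Or.inl (Or.inl h)
  · rcases hP.tot _ h with h | h
    · exact Or.inl (Or.inr h)
    · right
      right
      have e : (a⁻¹ * b)⁻¹ = b⁻¹ * a := by group
      rwa [e] at h

theorem inv_not {a : G} (h : a ∈ P) : a⁻¹ ∉ P := by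
  intro h'
  have := hP.mul _ h _ h'
  rw [mul_inv_cancel] at this
  exact hP.one this

theorem not_le_of_lt {a b : G} (h : a⁻¹ * b ∈ P) : ¬ Le P b a := by
  rintro (h' | h')
  · have e : a⁻¹ * b = (b⁻¹ * a)⁻¹ := by group
    rw [e, h', inv_one] at h
    exact hP.one h
  · have := hP.mul _ h _ h'
    have e : a⁻¹ * b * (b⁻¹ * a) = 1 := by group
    rw [e] at this
    exact hP.one this

theorem lt_of_not_le {a b : G} (h : ¬ Le P b a) : a⁻¹ * b ∈ P := by
  unfold Le at h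
  push Not at h
  have h1 : a⁻¹ * b ≠ 1 := by
    intro h2
    apply h.1
    have e : b⁻¹ * a = (a⁻¹ * b)⁻¹ := by group
    rw [e, h2, inv_one]
  rcases hP.tot _ h1 with h2 | h2
  · exact h2
  · exfalso
    apply h.2
    have e : (a⁻¹ * b)⁻¹ = b⁻¹ * a := by group
    rwa [e] at h2

theorem lt_of_lt_of_le {a b c : G} (h : a⁻¹ * b ∈ P) (h' : Le P b c) : a⁻¹ * c ∈ P := by
  have e : a⁻¹ * c = (a⁻¹ * b) * (b⁻¹ * c) := by group
  rw [e]
  rcases h' with h' | h'
  · rw [h', mul_one]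
    exact h
  · exact hP.mul _ h _ h'

theorem lt_of_le_of_lt {a b c : G} (h : Le P a b) (h' : b⁻¹ * c ∈ P) : a⁻¹ * c ∈ P := by
  have e : a⁻¹ * c = (a⁻¹ * b) * (b⁻¹ * c) := by group
  rw [e]
  rcases h with h | h
  · rw [h, one_mul]
    exact h'
  · exact hP.mul _ h _ h'

theorem pow_mem {x : G} (hx : x ∈ P) {n : ℕ} (hn : 1 ≤ n) : x ^ n ∈ P := by
  induction n with
  | zero => omega
  | succ n ih =>
    rcases Nat.eq_zero_or_pos n with h | h
    · subst h
      simpa using hx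
    · rw [pow_succ]
      exact hP.mul _ (ih h) _ hx

theorem zpow_mono {x : G} (hx : x ∈ P) {j k : ℤ} (h : j ≤ k) : Le P (x ^ j) (x ^ k) := by
  obtain ⟨n, hn⟩ := Int.eq_ofNat_of_zero_le (sub_nonneg.2 h)
  have e : (x ^ j)⁻¹ * x ^ k = x ^ n := by
    rw [← zpow_neg, ← zpow_add, ← zpow_natCast]
    congr 1
    have hn' : k - j = (n : ℤ) := hn
    omega
  unfold Le
  rw [e]
  rcases Nat.eq_zero_or_pos n with h0 | h0
  · left
    rw [h0, pow_zero]
  · exact Or.inr (pow_mem hP hx h0)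

omit hP in
theorem one_le_of_mem {x : G} (hx : x ∈ P) : Le P 1 x := by
  right
  simpa using hx

end ord

section conr

variable {G : Type u} [Group G] {P : Set G} (hC : Conradian P)
include hC

/-- (SC) `b ≺ a b²` for positive `a`, `b`. -/
theorem sc {a b : G} (ha : a ∈ P) (hb : b ∈ P) : b⁻¹ * a * b ^ 2 ∈ P := by
  have hP := hC.1
  by_contra hn
  have h0 : b⁻¹ * a * b ^ 2 ≠ 1 := by
    intro h
    have h1 : a * b = 1 := by
      have e : a * b = b * (b⁻¹ * a * b ^ 2) * b⁻¹ := by group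
      rw [e, h]
      group
    have := hP.mul _ ha _ hb
    rw [h1] at this
    exact hP.one this
  have h1 : (b⁻¹ * a * b ^ 2)⁻¹ ∈ P := (hP.tot _ h0).resolve_left hn
  have h1' : (b ^ 2)⁻¹ * a⁻¹ * b ∈ P := by
    have e : (b ^ 2)⁻¹ * a⁻¹ * b = (b⁻¹ * a * b ^ 2)⁻¹ := by group
    rw [e]
    exact h1
  -- `h = a b`, `h ^ n ≺ b`
  have h2 : ∀ n : ℕ, 1 ≤ n → ((a * b) ^ n)⁻¹ * b ∈ P := by
    intro n hn
    induction n with
    | zero => omega
    | succ n ih =>
      rcases Nat.eq_zero_or_pos n with h | h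
      · subst h
        have e : ((a * b) ^ (0 + 1))⁻¹ * b = b * ((b ^ 2)⁻¹ * a⁻¹ * b) := by
          rw [zero_add, pow_one]
          group
        rw [e]
        exact hP.mul _ hb _ h1'
      · have e : ((a * b) ^ (n + 1))⁻¹ * b = (((a * b) ^ n)⁻¹ * b) * ((b ^ 2)⁻¹ * a⁻¹ * b) := by
          rw [pow_succ' (a * b) n]
          generalize (a * b) ^ n = z
          group
        rw [e]
        exact hP.mul _ (ih h) _ h1'
  obtain ⟨n, hn1, hn2⟩ := hC.2 a ha (a * b) (hP.mul _ ha _ hb)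
  have h3 := hP.mul _ hn2 _ (h2 n hn1)
  have e : (a * b)⁻¹ * a * (a * b) ^ n * (((a * b) ^ n)⁻¹ * b) = 1 := by group
  rw [e] at h3
  exact hP.one h3

/-- `p⁻¹ x^m ≼ x^(2m)` -/
theorem sc_le {p x : G} (hp : Le P 1 p) (hx : x ∈ P) {m : ℕ} (hm : 1 ≤ m) :
    Le P (p⁻¹ * x ^ m) (x ^ (2 * m)) := by
  have hP := hC.1
  rcases hp with hp | hp
  · have hp' : p = 1 := by simpa using hp
    subst hp'
    have := zpow_mono hP hx (j := (m : ℤ)) (k := ((2 * m : ℕ) : ℤ)) (by push_cast; omega)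
    rw [zpow_natCast, zpow_natCast] at this
    simpa using this
  · have hp' : p ∈ P := by simpa using hp
    right
    have h := sc hC hp' (pow_mem hP hx hm)
    have e : (p⁻¹ * x ^ m)⁻¹ * x ^ (2 * m) = (x ^ m)⁻¹ * p * (x ^ m) ^ 2 := by
      rw [mul_inv_rev, inv_inv, ← pow_mul x m 2, mul_comm m 2]
    rw [e]
    exact h

/-- (LC) `x^(-(2m+1)) ≼ p x^(-m)` for positive `p`, `x`. -/
theorem lc {p x : G} (hp : p ∈ P) (hx : x ∈ P) (m : ℕ) :
    Le P (x ^ (-(2 * m + 1 : ℤ))) (p * x ^ (-(m : ℤ))) := by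
  have hP := hC.1
  -- otherwise `p⁻¹ x^{-(2m+1)} ≻ x^{-m}`
  by_contra hn
  have h1 : (p * x ^ (-(m : ℤ)))⁻¹ * x ^ (-(2 * m + 1 : ℤ)) ∈ P := lt_of_not_le hP hn
  have ha : x ^ (m : ℤ) * p⁻¹ * x ^ (-(2 * m + 1 : ℤ)) ∈ P := by
    have e : x ^ (m : ℤ) * p⁻¹ * x ^ (-(2 * m + 1 : ℤ)) =
        (p * x ^ (-(m : ℤ)))⁻¹ * x ^ (-(2 * m + 1 : ℤ)) := by
      rw [mul_inv_rev, ← zpow_neg, neg_neg]
    rw [e]
    exact h1
  have hb : x ^ (m : ℤ) * p⁻¹ * x ^ (-(m : ℤ)) ∈ P := by
    have e : x ^ (m : ℤ) * p⁻¹ * x ^ (-(m : ℤ)) =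
        (x ^ (m : ℤ) * p⁻¹ * x ^ (-(2 * m + 1 : ℤ))) * x ^ (m + 1) := by
      rw [← zpow_natCast x (m + 1)]
      push_cast
      group
    rw [e]
    exact hP.mul _ ha _ (pow_mem hP hx (by omega))
  obtain ⟨n, hn1, hn2⟩ := hC.2 _ ha _ hb
  have key : (x ^ (m : ℤ) * p⁻¹ * x ^ (-(m : ℤ))) ^ n =
      x ^ (m : ℤ) * (p⁻¹) ^ n * x ^ (-(m : ℤ)) := by
    clear hn1 hn2
    induction n with
    | zero => simp
    | succ n ih =>
      rw [pow_succ, ih, pow_succ]
      group
  rw [key] at hn2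
  have e : (x ^ (m : ℤ) * p⁻¹ * x ^ (-(m : ℤ)))⁻¹ *
      (x ^ (m : ℤ) * p⁻¹ * x ^ (-(2 * m + 1 : ℤ))) *
      (x ^ (m : ℤ) * (p⁻¹) ^ n * x ^ (-(m : ℤ))) =
      x⁻¹ * (x ^ (m : ℤ) * p ^ n)⁻¹ := by
    have e1 : x ^ (-(2 * m + 1 : ℤ)) = x ^ (-(m : ℤ)) * x⁻¹ * x ^ (-(m : ℤ)) := by
      group
    rw [e1, inv_pow]
    group
  rw [e] at hn2
  have h3 : x ^ (m : ℤ) * p ^ n ∈ P := by
    rw [zpow_natCast]
    rcases Nat.eq_zero_or_pos m with h | h
    · subst h
      rw [pow_zero, one_mul]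
      exact pow_mem hP hp hn1
    · exact hP.mul _ (pow_mem hP hx h) _ (pow_mem hP hp hn1)
  have h4 := hP.mul _ (hP.mul _ h3 _ hx) _ (by
    have : (x ^ (m : ℤ) * p ^ n * x)⁻¹ ∈ P := by
      rw [mul_inv_rev]
      exact hn2
    exact this)
  rw [mul_inv_cancel] at h4
  exact hP.one h4

omit hC in
/-- elements bounded by powers of `x` -/
def Bd (P : Set G) (x : G) (w : G) : Prop :=
  (∃ m : ℕ, Le P w (x ^ m)) ∧ ∃ m : ℕ, Le P (x ^ (-(m : ℤ))) w

theorem Bd.le_big {x w : G} (hx : x ∈ P) (h : Bd P x w) :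
    ∃ m : ℕ, 1 ≤ m ∧ Le P w (x ^ m) ∧ Le P (x ^ (-(m : ℤ))) w := by
  have hP := hC.1
  obtain ⟨⟨m, hm⟩, n, hn⟩ := h
  refine ⟨m + n + 1, by omega, ?_, ?_⟩
  · refine Le.trans' hP hm ?_
    have := zpow_mono hP hx (j := (m : ℤ)) (k := ((m + n + 1 : ℕ) : ℤ)) (by push_cast; omega)
    rwa [zpow_natCast, zpow_natCast] at this
  · exact Le.trans' hP (zpow_mono hP hx (by push_cast; omega)) hn

theorem Bd.mul {x y w : G} (hx : x ∈ P) (hy : Bd P x y) (hw : Bd P x w) : Bd P x (y * w) := by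
  have hP := hC.1
  obtain ⟨k, hk, hy1, hy2⟩ := Bd.le_big hC hx hy
  obtain ⟨m, hm, hw1, hw2⟩ := Bd.le_big hC hx hw
  constructor
  · refine ⟨k + 2 * m, ?_⟩
    -- y w ≤ y x^m = x^k p⁻¹ x^m ≤ x^k x^(2m), p = y⁻¹ x^k
    have h1 : Le P (y * w) (y * x ^ m) := Le.left y hw1
    have h2 : Le P 1 (y⁻¹ * x ^ k) := by
      have := Le.left y⁻¹ hy1
      rwa [inv_mul_cancel] at this
    have h3 := Le.left (x ^ k) (sc_le hC h2 hx hm)
    have e : x ^ k * ((y⁻¹ * x ^ k)⁻¹ * x ^ m) = y * x ^ m := by group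
    rw [e, ← pow_add] at h3
    exact Le.trans' hP h1 h3
  · refine ⟨k + (2 * m + 1), ?_⟩
    have h1 : Le P (y * x ^ (-(m : ℤ))) (y * w) := Le.left y hw2
    refine Le.trans' hP ?_ h1
    -- y = x^(-k) p
    rcases hy2 with h | h
    · have e : y = x ^ (-(k : ℤ)) := by
        have := inv_mul_eq_one.1 h
        exact this.symm
      rw [e, ← zpow_add]
      exact zpow_mono hP hx (by push_cast; omega)
    · have h3 := Le.left (x ^ (-(k : ℤ))) (lc hC h hx m)
      rw [← zpow_add] at h3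
      have e : x ^ (-(k : ℤ)) * ((x ^ (-(k : ℤ)))⁻¹ * y * x ^ (-(m : ℤ))) =
          y * x ^ (-(m : ℤ)) := by group
      rw [e] at h3
      have e2 : -(k : ℤ) + -(2 * (m : ℤ) + 1) = -((k + (2 * m + 1) : ℕ) : ℤ) := by
        push_cast
        ring
      rwa [e2] at h3

theorem Bd.inv {x w : G} (hx : x ∈ P) (hw : Bd P x w) : Bd P x w⁻¹ := by
  have hP := hC.1
  obtain ⟨k, hk, hw1, hw2⟩ := Bd.le_big hC hx hw
  constructor
  · refine ⟨2 * k, ?_⟩
    -- w = x^(-k) p,  w⁻¹ = p⁻¹ x^k ≤ x^(2k)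
    have h2 : Le P 1 ((x ^ (-(k : ℤ)))⁻¹ * w) := by
      have := Le.left ((x ^ (-(k : ℤ)))⁻¹) hw2
      rwa [inv_mul_cancel] at this
    have h3 := sc_le hC h2 hx hk
    have e : ((x ^ (-(k : ℤ)))⁻¹ * w)⁻¹ * x ^ k = w⁻¹ := by
      rw [← zpow_natCast x k]
      group
    rwa [e] at h3
  · refine ⟨2 * k + 1, ?_⟩
    -- w = x^k p⁻¹, w⁻¹ = p x^(-k)
    rcases hw1 with h | h
    · have e : w = x ^ k := inv_mul_eq_one.1 h
      rw [e, ← zpow_natCast x k, ← zpow_neg]
      exact zpow_mono hP hx (by push_cast; omega)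
    · have h3 := lc hC h hx k
      have e : w⁻¹ * x ^ k * x ^ (-(k : ℤ)) = w⁻¹ := by
        rw [← zpow_natCast x k]
        group
      rw [e] at h3
      have e2 : -(2 * (k : ℤ) + 1) = -((2 * k + 1 : ℕ) : ℤ) := by
        push_cast
        ring
      rwa [e2] at h3

omit hC in
theorem Bd.one (P : Set G) (x : G) : Bd P x 1 :=
  ⟨⟨0, by simpa using Le.rfl' P (1 : G)⟩, ⟨0, by simpa using Le.rfl' P (1 : G)⟩⟩

omit hC in
theorem Bd.self {x : G} (hx : x ∈ P) : Bd P x x := by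
  refine ⟨⟨1, by simpa using Le.rfl' P x⟩, ⟨0, ?_⟩⟩
  simpa using one_le_of_mem hx

omit hC in
/-- convexity -/
theorem Bd.conv (hP : IsCone P) {x a b w : G} (ha : Bd P x a) (hb : Bd P x b) (h1 : Le P a w)
    (h2 : Le P w b) : Bd P x w := by
  obtain ⟨m, hm⟩ := ha.2
  obtain ⟨n, hn⟩ := hb.1
  exact ⟨⟨n, Le.trans' hP h2 hn⟩, ⟨m, Le.trans' hP hm h1⟩⟩

theorem Bd.zpow {x w : G} (hx : x ∈ P) (hw : Bd P x w) (n : ℤ) : Bd P x (w ^ n) := by
  have hnat : ∀ n : ℕ, Bd P x (w ^ n) := by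
    intro n
    induction n with
    | zero => simpa using Bd.one P x
    | succ n ih =>
      rw [pow_succ]
      exact Bd.mul hC hx ih hw
  rcases Int.eq_nat_or_neg n with ⟨k, hk | hk⟩
  · rw [hk, zpow_natCast]
    exact hnat k
  · rw [hk, zpow_neg, zpow_natCast]
    exact Bd.inv hC hx (hnat k)

omit hC in
/-- the elements all of whose powers are `≼ x` -/
def Sm (P : Set G) (x w : G) : Prop := ∀ n : ℤ, Le P (w ^ n) x

omit hC in
theorem Sm.inv {x w : G} (h : Sm P x w) : Sm P x w⁻¹ := by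
  intro n
  have := h (-n)
  rwa [zpow_neg, ← inv_zpow] at this

omit hC in
theorem Sm.bd {x r : G} (hr : r ∈ P) (h : Sm P x r) {w : G} (hw : Bd P r w)
    (hC : Conradian P) : Sm P x w := by
  intro n
  obtain ⟨m, hm⟩ := (Bd.zpow hC hr hw n).1
  have := h m
  rw [zpow_natCast] at this
  exact Le.trans' hC.1 hm this

/-- every element is trivial or has a positive representative of `{w, w⁻¹}` -/
theorem exists_abs {w : G} (hw : w ≠ 1) : ∃ r ∈ P, Bd P r w ∧ (r = w ∨ r = w⁻¹) := by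
  rcases hC.1.tot w hw with h | h
  · exact ⟨w, h, Bd.self h, Or.inl rfl⟩
  · refine ⟨w⁻¹, h, ?_, Or.inr rfl⟩
    have := Bd.inv hC h (Bd.self h)
    rwa [inv_inv] at this

theorem Sm.mul {x y w : G} (hy : Sm P x y) (hw : Sm P x w) :
    Sm P x (y * w) := by
  have hP := hC.1
  by_cases h1 : y = 1
  · rw [h1, one_mul]
    exact hw
  by_cases h2 : w = 1
  · rw [h2, mul_one]
    exact hy
  obtain ⟨r, hr, hyr, hr'⟩ := exists_abs hC h1
  obtain ⟨s, hs, hws, hs'⟩ := exists_abs hC h2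
  have hrS : Sm P x r := by
    rcases hr' with h | h
    · rw [h]
      exact hy
    · rw [h]
      exact hy.inv
  have hsS : Sm P x s := by
    rcases hs' with h | h
    · rw [h]
      exact hw
    · rw [h]
      exact hw.inv
  rcases Le.total hP r s with h | h
  · -- r ≤ s
    have hrs : Bd P s r := Bd.conv hP (Bd.one P s) (Bd.self hs) (one_le_of_mem hr) h
    have hys : Bd P s y := by
      rcases hr' with h | h
      · rw [← h]
        exact hrs
      · have := Bd.inv hC hs hrs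
        rwa [h, inv_inv] at this
    exact Sm.bd hs hsS (Bd.mul hC hs hys hws) hC
  · have hrs : Bd P r s := Bd.conv hP (Bd.one P r) (Bd.self hr) (one_le_of_mem hs) h
    have hwr : Bd P r w := by
      rcases hs' with h | h
      · rw [← h]
        exact hrs
      · have := Bd.inv hC hr hrs
        rwa [h, inv_inv] at this
    exact Sm.bd hr hrS (Bd.mul hC hr hyr hwr) hC

omit hC in
theorem Sm.one {x : G} (hx : Le P 1 x) : Sm P x 1 := by
  intro n
  rw [one_zpow]
  exact hx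

/-- convexity of the small elements -/
theorem Sm.conv {x w c : G} (hc : Sm P x c) (h1 : Le P 1 w) (h2 : Le P w c) : Sm P x w := by
  have hP := hC.1
  by_cases h : c = 1
  · subst h
    have : w = 1 := by
      rcases h1 with h1 | h1
      · simpa using h1
      · exfalso
        exact not_le_of_lt hP h1 h2
    rw [this]
    exact hc
  · have hcP : c ∈ P := by
      rcases hP.tot c h with h' | h'
      · exact h'
      · exfalso
        have h3 := Le.trans' hP h1 h2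
        refine not_le_of_lt hP (a := c) (b := 1) ?_ h3
        rw [mul_one]
        exact h'
    exact Sm.bd hcP hc (Bd.conv hP (Bd.one P c) (Bd.self hcP) h1 h2) hC

/-- a positive element that is not small is cofinal, if `x` is -/
theorem cofinal_of_not_sm {x : G} (hx : x ∈ P) (hcof : ∀ g, Bd P x g) {s : G} (hs : s ∈ P)
    (h : ¬ Sm P x s) (g : G) : Bd P s g := by
  have hP := hC.1
  unfold Sm at h
  push Not at h
  obtain ⟨n, hn⟩ := h
  have h1 : x⁻¹ * s ^ n ∈ P := lt_of_not_le hP hn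
  have h2 : Bd P s x := Bd.conv hP (Bd.one P s) (Bd.zpow hC hs (Bd.self hs) n)
    (one_le_of_mem hx) (Or.inr h1)
  obtain ⟨⟨k, hk⟩, m, hm⟩ := hcof g
  have h3 := Bd.zpow hC hs h2 k
  rw [zpow_natCast] at h3
  exact Bd.conv hP (Bd.zpow hC hs h2 _) h3 hm hk

theorem Sm.conj {x : G} (hx : x ∈ P) (hcof : ∀ g, Bd P x g) {c : G} (hc : Sm P x c) (u : G) :
    Sm P x (u * c * u⁻¹) := by
  have hP := hC.1
  by_contra hn
  have h0 : u * c * u⁻¹ ≠ 1 := by
    intro h
    rw [h] at hn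
    exact hn (Sm.one (one_le_of_mem hx))
  -- every `g` is below a power of `u c u⁻¹`
  have h1 : ∀ g, ∃ m : ℤ, Le P g ((u * c * u⁻¹) ^ m) := by
    intro g
    rcases hP.tot _ h0 with h | h
    · obtain ⟨m, hm⟩ := (cofinal_of_not_sm hC hx hcof h hn g).1
      exact ⟨m, by rw [zpow_natCast]; exact hm⟩
    · have hn' : ¬ Sm P x (u * c * u⁻¹)⁻¹ := by
        intro h'
        have := h'.inv
        rw [inv_inv] at this
        exact hn this
      obtain ⟨m, hm⟩ := (cofinal_of_not_sm hC hx hcof h hn' g).1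
      refine ⟨-m, ?_⟩
      rw [zpow_neg, ← inv_zpow, zpow_natCast]
      exact hm
  obtain ⟨k, hk, hk1, -⟩ := Bd.le_big hC hx (hcof u⁻¹)
  -- all powers are `≤ u x^(2k+1)`
  have h2 : ∀ m : ℤ, Le P ((u * c * u⁻¹) ^ m) (u * x ^ (2 * k + 1)) := by
    intro m
    rw [conj_zpow, mul_assoc]
    refine Le.left u ?_
    have h3 : Le P (c ^ m * u⁻¹) (c ^ m * x ^ k) := Le.left _ hk1
    refine Le.trans' hP h3 ?_
    have h4 : Le P 1 ((c ^ m)⁻¹ * x) := by
      have := Le.left (c ^ m)⁻¹ (hc m)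
      rwa [inv_mul_cancel] at this
    have h5 := Le.left x (sc_le hC h4 hx hk)
    have e : x * (((c ^ m)⁻¹ * x)⁻¹ * x ^ k) = c ^ m * x ^ k := by group
    rw [e, ← pow_succ'] at h5
    exact h5
  obtain ⟨m, hm⟩ := h1 (u * x ^ (2 * k + 2))
  have h3 := Le.trans' hP hm (h2 m)
  refine not_le_of_lt hP ?_ h3
  have e : (u * x ^ (2 * k + 1))⁻¹ * (u * x ^ (2 * k + 2)) = x := by
    rw [pow_succ x (2 * k + 1)]
    group
  rw [e]
  exact hx

/-- positive, not small elements stay positive under conjugation -/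
theorem conj_pos {x : G} (hx : x ∈ P) (hcof : ∀ g, Bd P x g) {g : G} (hg : g ∈ P)
    (hgs : ¬ Sm P x g) (u : G) : u * g * u⁻¹ ∈ P := by
  classical
  have hP := hC.1
  have key : ∀ {g : G}, g ∈ P → ¬ Sm P x g → ∀ {h : G}, h ∈ P → h⁻¹ * g * h ∈ P := by
    intro g hg hgs h hh
    have hex : ∃ n : ℕ, h⁻¹ * g ^ n ∈ P := by
      obtain ⟨n, hn⟩ := (cofinal_of_not_sm hC hx hcof hg hgs h).1
      refine ⟨n + 1, ?_⟩
      refine lt_of_le_of_lt hP hn ?_
      rw [pow_succ]
      simpa using hg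
    have hn := Nat.find_spec hex
    have hmin := fun m => Nat.find_min hex (m := m)
    set n := Nat.find hex with hndef
    have hn0 : n ≠ 0 := by
      intro h0
      rw [h0, pow_zero, mul_one] at hn
      exact inv_not hP hh hn
    obtain ⟨n', hn'⟩ : ∃ n', n = n' + 1 := ⟨n - 1, by omega⟩
    have h1 : h⁻¹ * g ^ n' ∉ P := hmin n' (by omega)
    rw [hn'] at hn
    have h2 : Le P (g ^ n') h := by
      by_contra hc
      exact h1 (lt_of_not_le hP hc)
    have h3 : Le P 1 ((g ^ n')⁻¹ * h) := by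
      have := Le.left (g ^ n')⁻¹ h2
      rwa [inv_mul_cancel] at this
    have h4 : ((g ^ n')⁻¹ * h)⁻¹ * g ∈ P := by
      have e : ((g ^ n')⁻¹ * h)⁻¹ * g = h⁻¹ * g ^ (n' + 1) := by
        rw [pow_succ]
        group
      rw [e]
      exact hn
    have e : h⁻¹ * g * h = (((g ^ n')⁻¹ * h)⁻¹ * g) * ((g ^ n')⁻¹ * h) := by
      have hcomm : g ^ n' * g = g * g ^ n' := by rw [← pow_succ, ← pow_succ']
      have e1 : (((g ^ n')⁻¹ * h)⁻¹ * g) * ((g ^ n')⁻¹ * h) =
          h⁻¹ * (g ^ n' * g) * (g ^ n')⁻¹ * h := by group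
      rw [e1, hcomm]
      group
    rw [e]
    rcases h3 with h3 | h3
    · have h5 : (g ^ n')⁻¹ * h = 1 := by simpa using h3
      rw [h5] at h4 ⊢
      simpa using h4
    · have h5 : (g ^ n')⁻¹ * h ∈ P := by simpa using h3
      exact hP.mul _ h4 _ h5
  by_cases hu : u = 1
  · rw [hu]
    simpa using hg
  rcases hP.tot u hu with h | h
  · by_contra hn
    have h0 : u * g * u⁻¹ ≠ 1 := by
      intro h1
      have : g = 1 := by
        have e : g = u⁻¹ * (u * g * u⁻¹) * u := by group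
        rw [e, h1]
        group
      rw [this] at hg
      exact hP.one hg
    have h1 : (u * g * u⁻¹)⁻¹ ∈ P := (hP.tot _ h0).resolve_left hn
    have h2 : ¬ Sm P x (u * g * u⁻¹)⁻¹ := by
      intro h'
      have h3 := Sm.conj hC hx hcof h'.inv u⁻¹
      rw [inv_inv, inv_inv] at h3
      have e : u⁻¹ * (u * g * u⁻¹) * u = g := by group
      rw [e] at h3
      exact hgs h3
    have h3 := key h1 h2 h
    have e : u⁻¹ * (u * g * u⁻¹)⁻¹ * u = g⁻¹ := by group
    rw [e] at h3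
    exact inv_not hP hg h3
  · have := key hg hgs h
    rwa [inv_inv] at this

end conr

/-- the normal subgroup of small elements -/
def smallSub {G : Type u} [Group G] {P : Set G} (hC : Conradian P) {x : G} (hx : x ∈ P) :
    Subgroup G where
  carrier := {w | Sm P x w}
  mul_mem' := fun ha hb => Sm.mul hC ha hb
  one_mem' := Sm.one (one_le_of_mem hx)
  inv_mem' := fun ha => Sm.inv ha

theorem mem_smallSub {G : Type u} [Group G] {P : Set G} (hC : Conradian P) {x : G} (hx : x ∈ P)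
    {w : G} : w ∈ smallSub hC hx ↔ Sm P x w := Iff.rfl

theorem con : ConStmt.{u} := by
  intro G _ hfg hnt P hC
  classical
  have hP := hC.1
  obtain ⟨S, hS⟩ := (Group.FG.out : (⊤ : Subgroup G).FG)
  -- a positive element bounding all generators
  obtain ⟨x0, hx0⟩ : ∃ x : G, x ∈ P := by
    obtain ⟨g, hg⟩ := exists_ne (1 : G)
    rcases hP.tot g hg with h | h
    · exact ⟨_, h⟩
    · exact ⟨_, h⟩
  have hbd : ∀ T : Finset G, ∃ x ∈ P, ∀ g ∈ T, Bd P x g := by
    intro T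
    induction T using Finset.induction_on with
    | empty => exact ⟨x0, hx0, fun g hg => absurd hg (Finset.notMem_empty g)⟩
    | insert a T ha ih =>
      obtain ⟨x, hx, hT⟩ := ih
      by_cases h1 : a = 1
      · refine ⟨x, hx, fun g hg => ?_⟩
        rcases Finset.mem_insert.1 hg with h | h
        · rw [h, h1]
          exact Bd.one P x
        · exact hT g h
      · obtain ⟨r, hr, har, -⟩ := exists_abs hC h1
        rcases Le.total hP r x with h | h
        · have hrx : Bd P x r := Bd.conv hP (Bd.one P x) (Bd.self hx) (one_le_of_mem hr) h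
          refine ⟨x, hx, fun g hg => ?_⟩
          rcases Finset.mem_insert.1 hg with h' | h'
          · rw [h']
            obtain ⟨⟨m, hm⟩, n, hn⟩ := har
            have e1 := Bd.zpow hC hx hrx m
            rw [zpow_natCast] at e1
            exact Bd.conv hP (Bd.zpow hC hx hrx _) e1 hn hm
          · exact hT g h'
        · have hxr : Bd P r x := Bd.conv hP (Bd.one P r) (Bd.self hr) (one_le_of_mem hx) h
          refine ⟨r, hr, fun g hg => ?_⟩
          rcases Finset.mem_insert.1 hg with h' | h'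
          · rw [h']
            exact har
          · obtain ⟨⟨m, hm⟩, n, hn⟩ := hT g h'
            have e1 := Bd.zpow hC hr hxr m
            rw [zpow_natCast] at e1
            exact Bd.conv hP (Bd.zpow hC hr hxr _) e1 hn hm
  obtain ⟨x, hx, hSx⟩ := hbd S
  have hcof : ∀ g, Bd P x g := by
    intro g
    have hg : g ∈ Subgroup.closure (S : Set G) := by
      rw [hS]
      exact Subgroup.mem_top g
    induction hg using Subgroup.closure_induction with
    | mem g hg => exact hSx g hg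
    | one => exact Bd.one P x
    | mul a b _ _ ha hb => exact Bd.mul hC hx ha hb
    | inv a _ ha => exact Bd.inv hC hx ha
  let N : Subgroup G := smallSub hC hx
  have hN : N.Normal := ⟨fun c hc u => Sm.conj hC hx hcof hc u⟩
  -- the order on the quotient
  have hwd : ∀ {a b : G}, a⁻¹ * b ∈ N → a ∈ P → a ∉ N → b ∈ P ∧ b ∉ N := by
    intro a b hab ha haN
    have hbN : b ∉ N := by
      intro hb
      apply haN
      have h1 := N.mul_mem hb (N.inv_mem hab)
      have e : b * (a⁻¹ * b)⁻¹ = a := by group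
      rwa [e] at h1
    refine ⟨?_, hbN⟩
    by_contra hb
    have hb1 : b ≠ 1 := by
      intro h
      rw [h] at hbN
      exact hbN N.one_mem
    have hb2 : b⁻¹ ∈ P := (hP.tot b hb1).resolve_left hb
    -- `c = a⁻¹ b ∈ N`, `b = a c`, `b < 1 < a`; so `1 < a < c'`? use convexity for `a⁻¹`:
    -- `c = a⁻¹ b ≺ a⁻¹ ≺ 1`; inverse form: `1 ≼ a ≼ ?`
    -- `1 ≺ c⁻¹`, `c⁻¹ = b⁻¹ a ≻ ?`
    -- left multiplication by `a⁻¹`: `a⁻¹ b ≺ a⁻¹`, so `c ≺ a⁻¹ ≺ 1`
    have h1 : (a⁻¹ * b)⁻¹ * a⁻¹ ∈ P := by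
      have e : (a⁻¹ * b)⁻¹ * a⁻¹ = b⁻¹ := by group
      rw [e]
      exact hb2
    have hcS : Sm P x (a⁻¹ * b) := hab
    -- c ≠ 1
    have hc1 : a⁻¹ * b ≠ 1 := by
      intro h
      have : a = b := inv_mul_eq_one.1 h
      rw [this] at ha
      exact hb ha
    have hcneg : (a⁻¹ * b)⁻¹ ∈ P := by
      have h2 : (a⁻¹ * b)⁻¹ * a⁻¹ * a ∈ P := hP.mul _ h1 _ ha
      have e : (a⁻¹ * b)⁻¹ * a⁻¹ * a = (a⁻¹ * b)⁻¹ := by group
      rwa [e] at h2
    have hr := Bd.self hcneg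
    have hb3 : Bd P (a⁻¹ * b)⁻¹ (a⁻¹ * b) := by
      have := Bd.inv hC hcneg hr
      rwa [inv_inv] at this
    have h3 : Bd P (a⁻¹ * b)⁻¹ a⁻¹ := by
      refine Bd.conv hP hb3 (Bd.one P _) (Or.inr h1) ?_
      right
      rw [inv_inv, mul_one]
      exact ha
    have h4 := Sm.bd hcneg hcS.inv h3 hC
    have h5 := h4.inv
    rw [inv_inv] at h5
    exact haN h5
  let o : BiOrd (G ⧸ N) :=
    { pos := fun q => ∃ g : G, (g : G ⧸ N) = q ∧ g ∈ P ∧ g ∉ N
      one := by
        rintro ⟨g, hg, -, hg2⟩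
        exact hg2 ((QuotientGroup.eq_one_iff g).1 hg)
      mul := by
        rintro _ _ ⟨g, rfl, hg, hgN⟩ ⟨h, rfl, hh, hhN⟩
        refine ⟨g * h, rfl, hP.mul _ hg _ hh, fun hgh => ?_⟩
        apply hgN
        refine Sm.conv hC hgh (one_le_of_mem hg) (Or.inr ?_)
        have e : g⁻¹ * (g * h) = h := by group
        rw [e]
        exact hh
      conj := by
        rintro q _ ⟨g, rfl, hg, hgN⟩
        obtain ⟨u, rfl⟩ := QuotientGroup.mk_surjective q
        refine ⟨u * g * u⁻¹, rfl, conj_pos hC hx hcof hg hgN u, fun h => ?_⟩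
        apply hgN
        have h1 := Sm.conj hC hx hcof h u⁻¹
        rw [inv_inv] at h1
        have e : u⁻¹ * (u * g * u⁻¹) * u = g := by group
        rwa [e] at h1
      tot := by
        intro q hq
        obtain ⟨u, rfl⟩ := QuotientGroup.mk_surjective q
        have huN : u ∉ N := fun h => hq ((QuotientGroup.eq_one_iff u).2 h)
        have hu1 : u ≠ 1 := by
          intro h
          rw [h] at huN
          exact huN N.one_mem
        rcases hP.tot u hu1 with h | h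
        · exact Or.inl ⟨u, rfl, h, huN⟩
        · exact Or.inr ⟨u⁻¹, rfl, h, fun h' => huN (by simpa using N.inv_mem h')⟩ }
  have hxN : x ∉ N := by
    intro h
    have h1 : Le P (x ^ (2 : ℤ)) x := h 2
    refine not_le_of_lt hP ?_ h1
    have e : x⁻¹ * x ^ (2 : ℤ) = x := by group
    rw [e]
    exact hx
  have hne : ∃ q : G ⧸ N, q ≠ 1 :=
    ⟨(x : G ⧸ N), fun h => hxN ((QuotientGroup.eq_one_iff x).1 h)⟩
  have hfgQ : Group.FG (G ⧸ N) := QuotientGroup.fg N
  obtain ⟨ψ, t, ht⟩ := exists_onto o hne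
  refine ⟨ψ.comp (QuotientGroup.mk' N), ?_⟩
  have hψ : Function.Surjective ψ := by
    intro z
    refine ⟨t ^ (Multiplicative.toAdd z), ?_⟩
    rw [map_zpow, ht]
    apply Multiplicative.toAdd.injective
    rw [toAdd_zpow]
    simp
  exact hψ.comp (QuotientGroup.mk'_surjective N)

end Pool.Agent.NGR.H12
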