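import Mathlib

/-!
Squad NGR (MP_c602ad_al): group rings `ℤ[G]` that are Noetherian, for left-orderable groups `G`,
and orders of finite subgroups.  Only definitions and statements (as `def ... : Prop`).
-/

set_option autoImplicit false

universe u

namespace Pool.Agent.NGR

open scoped Pointwise

/-- Positive cone of a left order: a subsemigroup `P` without `1` that contains, for every
`a ≠ 1`, the element `a` or its inverse.  The order is `x ≺ y` iff `x⁻¹ * y ∈ P`. -/
structure IsCone {G : Type u} [Group G] (P : Set G) : Prop where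
  mul : ∀ a ∈ P, ∀ b ∈ P, a * b ∈ P
  one : (1 : G) ∉ P
  tot : ∀ a, a ≠ 1 → a ∈ P ∨ a⁻¹ ∈ P

/-- `G` admits a left-invariant linear order. -/
def LeftOrderable (G : Type u) [Group G] : Prop := ∃ P : Set G, IsCone P

/-- The cone is Conradian: for positive `a, b` there is `n ≥ 1` with `b ≺ a b^n`. -/
def Conradian {G : Type u} [Group G] (P : Set G) : Prop :=
  IsCone P ∧ ∀ a ∈ P, ∀ b ∈ P, ∃ n : ℕ, 1 ≤ n ∧ b⁻¹ * a * b ^ n ∈ P

/-- Foelner condition (amenability): for every finite `S` and every `n` there is a finite
nonempty `F` with `n |F S ∪ F| ≤ (n + 1) |F|`. -/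
def Foelner (G : Type u) [Group G] : Prop :=
  ∀ (S : Set G), S.Finite → ∀ n : ℕ, ∃ F : Set G, F.Finite ∧ F.Nonempty ∧
    n * (F * S ∪ F).ncard ≤ (n + 1) * F.ncard

/-- Completely prime two-sided ideal: the quotient is a domain. -/
def CompletelyPrime {R : Type u} [Ring R] (I : TwoSidedIdeal R) : Prop :=
  (1 : R) ∉ I ∧ ∀ x y : R, x * y ∈ I → x ∈ I ∨ y ∈ I

/-- No infinite strictly descending sequence of completely prime ideals. -/
def DCCPrimes (R : Type u) [Ring R] : Prop :=
  ¬ ∃ I : ℕ → TwoSidedIdeal R, (∀ n, CompletelyPrime (I n)) ∧ ∀ n, I (n + 1) < I n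

/-- Every subgroup of `G` is finitely generated, and every nontrivial subgroup maps onto `ℤ`. -/
def FullyIndicable (G : Type u) [Group G] : Prop :=
  ∀ H : Subgroup G, H.FG ∧ (H ≠ ⊥ → ∃ f : H →* Multiplicative ℤ, Function.Surjective f)

/-- NOE (helper41): Noetherian integral group ring implies the Foelner condition
(Bartholdi; Kropholler-Lorensen). -/
def NoeStmt : Prop := ∀ {G : Type u} [Group G],
  IsNoetherianRing (MonoidAlgebra ℤ G) → Foelner G

/-- FGS: a Noetherian group ring makes all subgroups finitely generated, and the group rings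
of all subgroups are Noetherian. -/
def FgsStmt : Prop := ∀ {G : Type u} [Group G],
  IsNoetherianRing (MonoidAlgebra ℤ G) → ∀ H : Subgroup G, H.FG ∧
    IsNoetherianRing (MonoidAlgebra ℤ H)

/-- WMA (Witte Morris 2006, without measures): a countable left-orderable group with the
Foelner condition has a Conradian order. -/
def WmaStmt : Prop := ∀ {G : Type u} [Group G] [Countable G],
  Foelner G → LeftOrderable G → ∃ P : Set G, Conradian P

/-- CON (Conrad): a finitely generated nontrivial group with a Conradian order maps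
onto `ℤ`. -/
def ConStmt : Prop := ∀ {G : Type u} [Group G] [Group.FG G] [Nontrivial G] (P : Set G),
  Conradian P → ∃ f : G →* Multiplicative ℤ, Function.Surjective f

/-- DCP: a fully indicable group whose integral group ring has the descending chain condition
on completely prime ideals is solvable. -/
def DcpStmt : Prop := ∀ {G : Type u} [Group G],
  FullyIndicable G → DCCPrimes (MonoidAlgebra ℤ G) → IsSolvable G

/-- BTO (helper89 (1)): `ℚ[G]` Noetherian and `G` amenable: finite subgroups have bounded
order. -/
def BtoStmt : Prop := ∀ {G : Type u} [Group G],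
  IsNoetherianRing (MonoidAlgebra ℚ G) → Foelner G →
    ∃ N : ℕ, ∀ H : Subgroup G, (H : Set G).Finite → Nat.card H ≤ N

/-- QNO: `ℤ[G]` Noetherian implies `ℚ[G]` Noetherian. -/
def QnoStmt : Prop := ∀ {G : Type u} [Group G],
  IsNoetherianRing (MonoidAlgebra ℤ G) → IsNoetherianRing (MonoidAlgebra ℚ G)

end Pool.Agent.NGR
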