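import Pool.Agent.Helper12_NGR.Stmts

/-!
Squad NGR: finite cohomological dimension, statements.
-/

set_option autoImplicit false

universe u

namespace Pool.Agent.NGR

/-- The trivial module `ℤ` over `ℤ[G]` has a projective resolution of length at most `n`:
`cd G ≤ n`.  (`ε` is the augmentation, additive and `G`-invariant, hence linear for the trivial
action of `G` on `ℤ`.) -/
def CdLE (G : Type u) [Group G] (n : ℕ) : Prop :=
  ∃ (Q : ℕ → Type u) (_ : ∀ i, AddCommGroup (Q i)) (_ : ∀ i, Module (MonoidAlgebra ℤ G) (Q i))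
    (d : ∀ i, Q (i + 1) →ₗ[MonoidAlgebra ℤ G] Q i) (ε : Q 0 →+ ℤ),
    (∀ i, Module.Projective (MonoidAlgebra ℤ G) (Q i)) ∧
    (∀ i, n < i → Subsingleton (Q i)) ∧
    (∀ (g : G) (x : Q 0), ε (MonoidAlgebra.single g (1 : ℤ) • x) = ε x) ∧
    Function.Surjective ε ∧ Function.Exact (d 0) ε ∧
    ∀ i, Function.Exact (d (i + 1)) (d i)

/-- finite cohomological dimension -/
def FiniteCD (G : Type u) [Group G] : Prop := ∃ n, CdLE G n

/-- CDF: step.  If `G` maps onto `ℤ` with kernel `N` and `ℤ[N]` is Noetherian, then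
`cd G ≤ n + 1` implies `cd N ≤ n`. -/
def CdfStmt : Prop := ∀ {G : Type u} [Group G] (f : G →* Multiplicative ℤ),
  Function.Surjective f → IsNoetherianRing (MonoidAlgebra ℤ f.ker) → ∀ n : ℕ,
    CdLE G (n + 1) → CdLE f.ker n

/-- CDZ: an infinite group has `cd > 0`. -/
def CdzStmt : Prop := ∀ {G : Type u} [Group G], CdLE G 0 → Finite G

/-- CDA: assembly. -/
def CdaStmt : Prop := ∀ {G : Type u} [Group G],
  IsNoetherianRing (MonoidAlgebra ℤ G) → FullyIndicable G → FiniteCD G → IsSolvable G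

end Pool.Agent.NGR
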